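import Mathlib
import Pool.Agent.Helper6.SW.MassAll
import Pool.Agent.Helper16.SW.ZCompact
import Pool.Agent.Helper16.SW.ZSum
import Pool.Agent.Helper16.SW.ZUp
import Pool.Agent.Helper16.SW.Triv
import Pool.Agent.Helper51.SW.Tent
import Pool.Agent.Helper51.SW.ZLD
import Pool.Agent.Helper51.SW.ZLower
import Pool.Agent.Helper51.SW.ZTransform

/-!
# SG-G: for every `δ > 0` and all large `x` there is a prime in `(x, (1 + δ) x]`

From the smoothed prime number theorem of the pool (`stMassAll_of`).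
-/

set_option autoImplicit false

namespace Pool.Agent.Helper35.SG

open Finset Pool.Agent.Helper6.SW

theorem massAll : StMassAll :=
  stMassAll_of
    (Helper51.SW.stZLD_of Helper16.SW.stZDeriv
      (Helper51.SW.stZLower_of Helper16.SW.stZDeriv Helper16.SW.stTrivA Helper16.SW.stTrivB)
      Helper16.SW.stZUp)
    Helper16.SW.stZCompact Helper51.SW.stZTransform Helper51.SW.stTent
    Helper16.SW.stOmSum Helper16.SW.stPrimePow

theorem exists_prime_ratio (δ : ℝ) (hδ : 0 < δ) : ∃ x₀ : ℝ, ∀ x : ℝ, x₀ ≤ x →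
    ∃ p : ℕ, p.Prime ∧ x < p ∧ (p : ℝ) ≤ (1 + δ) * x := by
  set V : ℝ := Real.log (1 + δ) / 2 with hV
  have hV0 : 0 < V := by
    have := Real.log_pos (show (1 : ℝ) < 1 + δ by linarith)
    positivity
  obtain ⟨c, C, X₀, hc, -, h⟩ := massAll V 0 hV0
  refine ⟨max X₀ 1, fun x hx => ?_⟩
  have hx1 : 1 ≤ x := (le_max_right _ _).trans hx
  have hxX : X₀ ≤ x := (le_max_left _ _).trans hx
  have he1 : 1 ≤ Real.exp V := Real.one_le_exp hV0.le
  have hX : X₀ ≤ Real.exp V * x := by nlinarith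
  obtain ⟨h1, h2⟩ := h (Real.exp V * x) hX
  rw [pow_zero, mul_one] at h1
  have hpos : 0 < Mass V 0 (Real.exp V * x) := lt_of_lt_of_le hc h1
  obtain ⟨p, hp, hne⟩ := Finset.exists_ne_zero_of_sum_ne_zero hpos.ne'
  have hne' : om V 0 (Real.exp V * x) p ≠ 0 := fun h0 => hne (by rw [h0, mul_zero])
  have h3 := (h2 p hp hne').1
  rw [PX, Finset.mem_filter, Finset.mem_Icc] at hp
  refine ⟨p, hp.2, ?_, ?_⟩
  · rwa [← mul_assoc, ← Real.exp_add, neg_add_cancel, Real.exp_zero, one_mul] at h3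
  · have h4 : (p : ℝ) ≤ Real.exp V * (Real.exp V * x) := by
      refine le_trans (by exact_mod_cast hp.1.2) (Nat.floor_le (by positivity))
    have h5 : Real.exp V * Real.exp V = 1 + δ := by
      rw [← Real.exp_add, hV, add_halves, Real.exp_log (by linarith)]
    calc (p : ℝ) ≤ Real.exp V * (Real.exp V * x) := h4
      _ = (1 + δ) * x := by rw [← mul_assoc, h5]

theorem prime_gap : ∃ x₀ : ℝ, ∀ x ≥ x₀, ∃ p : ℕ, p.Prime ∧ x < p ∧ (p : ℝ) ≤ 5 / 4 * x := by
  obtain ⟨x₀, h⟩ := exists_prime_ratio (1 / 4) (by norm_num)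
  refine ⟨x₀, fun x hx => ?_⟩
  obtain ⟨p, h1, h2, h3⟩ := h x hx
  exact ⟨p, h1, h2, by linarith⟩

end Pool.Agent.Helper35.SG
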